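import Pool.Agent.H994.AP.Final3
import Pool.Agent.H994.AP.A2
import Pool.Agent.H994.AP.PB

/-!
# Generalized Apéry numbers in every sector `s ≤ M r`

`a r s n = ∑_{k ≤ n} C(n,k)^r C(n+k,k)^s`. For every `M` there is `R` such that for all `r ≥ R` and
`s ≤ M r` the sequence is not log-convex, hence neither a Stieltjes moment sequence nor infinitely
log-convex.
-/

set_option autoImplicit false

open Pool.Agent.H994.AP

namespace Pool.Agent.Results.MP_6026f4_co.EverySector

theorem result :
    ∀ M : ℕ, ∃ R : ℕ, ∀ r s : ℕ, R ≤ r → s ≤ M * r →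
      (∃ n, a r s n * a r s (n + 2) < a r s (n + 1) ^ 2) ∧
      ¬ IsStieltjes (fun n => (a r s n : ℝ)) ∧
      ¬ InfinitelyLogConvex (fun n => (a r s n : ℤ)) :=
  (Three.final pieceA2 pieceB).2.1

end Pool.Agent.Results.MP_6026f4_co.EverySector
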