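import Pool.Agent.H994.AP.Final3
import Pool.Agent.H994.AP.A2
import Pool.Agent.H994.AP.PB

/-!
# Generalized Apéry numbers: infinite log-convexity for `s ≤ 3 r`

`a r s n = ∑_{k ≤ n} C(n,k)^r C(n+k,k)^s`. For `r ≥ 3` and `1 ≤ s ≤ 3 r` the sequence is not
infinitely log-convex, outside the list `X` of 8 pairs.
-/

set_option autoImplicit false

open Pool.Agent.H994.AP

namespace Pool.Agent.Results.MP_6026f4_co.InfLogConvexUpToThree

theorem result :
    ∀ r s : ℕ, 3 ≤ r → 1 ≤ s → s ≤ 3 * r →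
      (r, s) ∉ [(3, 5), (3, 6), (3, 7), (3, 8), (3, 9), (4, 10), (4, 11), (4, 12)] →
      ¬ InfinitelyLogConvex (fun n => (a r s n : ℤ)) :=
  (Three.final pieceA2 pieceB).2.2.1

end Pool.Agent.Results.MP_6026f4_co.InfLogConvexUpToThree
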