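import Pool.Agent.H994.AP.Final3
import Pool.Agent.H994.AP.A2
import Pool.Agent.H994.AP.PB

/-!
# Generalized Apéry numbers: the Stieltjes property for `s ≤ 3 r`

`a r s n = ∑_{k ≤ n} C(n,k)^r C(n+k,k)^s`. In the region `1 ≤ s ≤ 3 r` the sequence can be a
Stieltjes moment sequence only for `(r,s) = (1,1), (2,2), (2,4), (2,5), (2,6)`.
-/

set_option autoImplicit false

open Pool.Agent.H994.AP

namespace Pool.Agent.Results.MP_6026f4_co.StieltjesUpToThree

theorem result :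
    ∀ r s : ℕ, 1 ≤ s → s ≤ 3 * r → IsStieltjes (fun n => (a r s n : ℝ)) →
      (r, s) = (1, 1) ∨ (r, s) = (2, 2) ∨ (r, s) = (2, 4) ∨ (r, s) = (2, 5) ∨ (r, s) = (2, 6) :=
  (Three.final pieceA2 pieceB).1

end Pool.Agent.Results.MP_6026f4_co.StieltjesUpToThree
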